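import Mathlib
import Pool.Agent.H139R3.MSDefs
import Pool.Agent.H139R3.MSMain

set_option autoImplicit false

/-!
# The free group of rank two is minimal subshift universal

Let `L` be the free product of a cyclic group of order three, generated by `a`, and an infinite
cyclic group, generated by `b`. The free group on `s, t` acts on `{0,1,2}^L`: the generator `t`
acts by the shift by `b`, and `s` acts by the shift by `a` composed with a finite coordinate change
of order two commuting with it. Powers of `s` separate the two parts, and a commutator of
coordinate changes is a three-cycle at one coordinate, so the acting group contains all shifts and
enough finite coordinate changes to act minimally. The orbit relation is `shift up to finite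
change`, and a countable Borel equivalence relation, given by involutions (Feldman-Moore), is
reduced to it by an equivariant itinerary map of an `L`-action on `Y × ℤ × {0,1,2}` for which
`b ^ 2` acts trivially; this makes itineraries immune to finite changes.
-/

namespace Pool.Agent.Results.MP_27a2ed_lc.FreeTwoMinimalUniversal

open Pool.Agent.H139R3.MS

universe u

/-- The free group of rank two is minimal subshift universal: there is a minimal subshift
`K ⊆ {0,1}^F₂` such that every countable Borel equivalence relation on a standard Borel space is
Borel reducible to the orbit equivalence relation of the shift action restricted to `K`. -/
theorem result : MinimalSubshiftUniversal.{u} (FreeGroup (Fin 2)) :=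
  ⟨K0, K0_minimal, K0_universal⟩

end Pool.Agent.Results.MP_27a2ed_lc.FreeTwoMinimalUniversal
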